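import Pool.Agent.KT3.StmtsA

/-!
# KT3 squad, row LFO: the projections of two walls with the same `w 1`, `w 2`
-/

set_option autoImplicit false

open Matrix Filter Topology

namespace Pool.Agent.KT3.H21

open Pool.Agent.PFS Pool.Agent.PFJ Pool.Agent.NBT

theorem lfo (h1 : WifStmt) (h2 : PhuStmt) (h3 : LfmStmt) : LfoStmt := by
  intro n C Γ d h w w' hw hw' e1 e2 φ p p' hφ hp hp'
  have hI : HI C Γ 3 I01 d := h.toHI
  obtain ⟨a1, -, -, -, -, a6, -⟩ := h1 n C Γ 3 I01 d hI w hw p hp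
  obtain ⟨b1, -, -, -, -, b6, -⟩ := h1 n C Γ 3 I01 d hI w' hw' p' hp'
  have hm : ∀ m, m ∉ I01 → w' m = w m := by
    intro m hm
    fin_cases m
    · exact absurd (by decide) hm
    · exact absurd (by decide) hm
    · exact e2
  obtain ⟨c1, c2⟩ := a6 w' hw' hm p' hp'
  obtain ⟨d1, d2⟩ := b6 w hw (fun m hmm => (hm m hmm).symm) p hp
  obtain ⟨u1, -, -, -, u5⟩ := h2 n C Γ 3 hI.toHK w hw.pes 0 φ hφ
  have hne : ∀ j : Fin 3, j ≠ 0 → w' j = w j := by
    intro j hj
    fin_cases j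
    · exact absurd rfl hj
    · exact e1
    · exact e2
  have hpos : 0 < φ (w' 0) := (u5 w' hw'.pes hne).1
  have hF0' : w' 0 ∈ BI C w' I01 := hw'.box.mem 0 (by decide)
  have hF1' : w' 1 ∈ BI C w' I01 := hw'.box.mem 1 (by decide)
  have hF0 : w 0 ∈ BI C w I01 := hw.box.mem 0 (by decide)
  have hF1 : w 1 ∈ BI C w I01 := hw.box.mem 1 (by decide)
  have hA : ∀ x, φ (p' x) = φ x := by
    have k := u1 (φ ∘ₗ p') (fun x hx => hφ.pos _ (hp'.pos x hx)) (by
      intro j hj
      fin_cases j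
      · exact absurd rfl hj
      · change φ (p' (w 1)) = 0
        rw [← e1, hp'.idB _ hF1', e1]
        exact hφ.zero 1 (by decide)
      · change φ (p' (w 2)) = 0
        rw [← e2, b1 2 (by decide), map_zero])
    have k0 := k (w' 0)
    simp only [LinearMap.comp_apply] at k k0
    rw [hp'.idB _ hF0'] at k0
    have k1 : φ (p' (w 0)) = 1 := by
      have : (φ (p' (w 0)) - 1) * φ (w' 0) = 0 := by linear_combination -k0
      rcases mul_eq_zero.1 this with h0 | h0
      · linarith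
      · exact absurd h0 hpos.ne'
    intro x
    rw [k x, k1, one_mul]
  have hB : ∀ x, φ (p x) = φ x := by
    have k := u1 (φ ∘ₗ p) (fun x hx => hφ.pos _ (hp.pos x hx)) (by
      intro j hj
      fin_cases j
      · exact absurd rfl hj
      · change φ (p (w 1)) = 0
        rw [hp.idB _ hF1]
        exact hφ.zero 1 (by decide)
      · change φ (p (w 2)) = 0
        rw [a1 2 (by decide), map_zero])
    simp only [LinearMap.comp_apply] at k
    rw [hp.idB _ hF0, hφ.one] at k
    intro x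
    rw [k x, one_mul]
  refine ⟨hA, hB, ?_⟩
  intro x hx
  have hpx : p (p' x) = x := d2 x hx.mem
  refine ⟨⟨hp'.mem x, hp'.pos x hx.cl, ?_, ?_⟩, hpx⟩
  · rintro ⟨-, -, hu⟩
    apply hx.non
    refine ⟨hx.mem, hx.cl, fun z hz => ?_⟩
    obtain ⟨M, hM, hMz⟩ := hu (p' z) (hp'.mem z)
    refine ⟨M, hM, ?_⟩
    have := hp.pos _ hMz
    rwa [map_sub, map_smul, hpx, d2 z hz] at this
  · intro c hc
    have k := hA x
    rw [hc, map_smul, e1, hφ.zero 1 (by decide), smul_zero] at k
    have := (((h3 n C Γ d h w hw).2 x hx).2.2.2.2.2.2 φ hφ).1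
    linarith

end Pool.Agent.KT3.H21
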