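import Pool.Agent.KT3.StmtsA
import Pool.Agent.Helper13_NBT.IBF

/-!
# KT3 squad, row LFS: the leaf is smooth at `w 1`
-/

set_option autoImplicit false

open Matrix Filter Topology

namespace Pool.Agent.KT3.H21

open Pool.Agent.PFS Pool.Agent.PFJ Pool.Agent.NBT

theorem lfs (h1 : PhuStmt) : LfsStmt := by
  intro n C Γ d h w hw φ hφ u hu hφu x hx τ hτ
  have hP : PCone C := h.toHI.toHK.toCC.toPCone
  have hpes : PES C w := hw.pes.1
  have hf : ∑ i, w i ∈ C := hpes.sum_mem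
  have hS := ((h1 n C Γ 3 h.toHI.toHK w hw.pes 0 φ hφ).2.1 u).1 hφu
  have hc : ({0}ᶜ : Finset (Fin 3)) = {1, 2} := by decide
  have hc2 : (I01ᶜ : Finset (Fin 3)) = {2} := by decide
  rw [hc, fS_pair w (by decide)] at hS
  obtain ⟨M, hM, hMx⟩ := hP.absorb hx (∑ i, w i)
  obtain ⟨κ, hκ, ha, hb⟩ := hS _ hf (τ / M) (div_pos hτ hM)
  have hF0 : w 0 ∈ BI C w I01 := hw.box.mem 0 (by decide)
  have hF1 : w 1 ∈ BI C w I01 := hw.box.mem 1 (by decide)
  have key : ∀ v ∈ BI C w I01, κ • (w 1 + w 2) + (τ / M) • ∑ i, w i + v ∈ closure C →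
      κ • w 1 + τ • x + v ∈ closure C := by
    intro v hv hv2
    have e1 : κ • (w 1 + w 2) + (τ / M) • ∑ i, w i + v =
        (κ • w 1 + (τ / M) • (w 0 + w 1) + v) + ∑ m ∈ I01ᶜ, (κ + τ / M) • w m := by
      rw [hc2, Finset.sum_singleton, Fin.sum_univ_three]
      module
    rw [e1] at hv2
    have hv3 := (((Pool.Agent.NBT.H13.ibf n C hP 3 w hpes).1 I01 _ hw.box).2.2.1 _
      (Submodule.add_mem _ (Submodule.add_mem _ (Submodule.smul_mem _ _ hF1)
        (Submodule.smul_mem _ _ (Submodule.add_mem _ hF0 hF1))) hv) (fun _ => κ + τ / M) hv2).1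
    have e2 : κ • w 1 + τ • x + v = (κ • w 1 + (τ / M) • (w 0 + w 1) + v) +
        ((τ / M) • (M • x - ∑ i, w i) + (τ / M) • w 2) := by
      rw [Fin.sum_univ_three, smul_sub, smul_smul, div_mul_cancel₀ τ hM.ne']
      module
    rw [e2]
    refine hP.cl_add hv3 (hP.cl_add (hP.cl_smul (subset_closure hMx) (div_pos hτ hM).le)
      (hP.cl_smul (hpes.cl 2) (div_pos hτ hM).le))
  refine ⟨κ, hκ, ?_, key u hu hb⟩
  have := key (-u) (Submodule.neg_mem _ hu) (by rw [← sub_eq_add_neg]; exact ha)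
  rwa [← sub_eq_add_neg] at this

end Pool.Agent.KT3.H21
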